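import Mathlib

namespace Pool.Agent.Results.MP_6331ea_an.Counter
open Metric Set Filter Topology

universe u

/-- spectral permanence: spectra do not change in any commutative Banach superalgebra. -/
def SPP (A : Type) [NormedCommRing A] [NormedAlgebra ℂ A] : Prop :=
  ∀ (B : Type u) [NormedCommRing B] [NormedAlgebra ℂ B] [CompleteSpace B] (ι : A →ₐ[ℂ] B),
    IsClosedEmbedding ι → ∀ x : A, spectrum ℂ x = spectrum ℂ (ι x)

abbrev D : Type := closedBall (0 : ℂ) 1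
abbrev K : Type := D × unitInterval

noncomputable def ρ (z : ℂ) : D := ⟨z / (max 1 ‖z‖ : ℝ), by
  have h : (0 : ℝ) < max 1 ‖z‖ := lt_max_of_lt_left one_pos
  rw [mem_closedBall_zero_iff, norm_div, Complex.norm_real, Real.norm_of_nonneg h.le, div_le_one h]
  exact le_max_right _ _⟩

lemma ρc : Continuous ρ := by
  refine Continuous.subtype_mk (continuous_id.div (by fun_prop) fun z => ?_) _
  exact_mod_cast (lt_max_of_lt_left one_pos).ne'

lemma ρv (z : ℂ) (h : ‖z‖ ≤ 1) : (ρ z : ℂ) = z := by simp [ρ, max_eq_left h]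

lemma ρe (z : D) : ρ z = z := Subtype.ext (ρv _ (mem_closedBall_zero_iff.1 z.2))

noncomputable def A : Subalgebra ℂ C(K, ℂ) where
  carrier := {f | (∀ t, DifferentiableOn ℂ (fun z => f (ρ z, t)) (ball 0 1)) ∧
    ∀ z w, f (z, 0) = f (w, 0)}
  mul_mem' := fun a b => ⟨fun t => (a.1 t).mul (b.1 t), fun z w => by
    simp only [ContinuousMap.mul_apply, a.2 z w, b.2 z w]⟩
  add_mem' := fun a b => ⟨fun t => (a.1 t).add (b.1 t), fun z w => by
    simp only [ContinuousMap.add_apply, a.2 z w, b.2 z w]⟩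
  algebraMap_mem' := fun c => ⟨fun _ => differentiableOn_const _, fun _ _ => rfl⟩

lemma closedA : IsClosed (A : Set C(K, ℂ)) := by
  refine isClosed_of_closure_subset fun f hf => ?_
  obtain ⟨g, hg, hl⟩ := mem_closure_iff_seq_limit.1 hf
  have hu := ContinuousMap.tendsto_iff_tendstoUniformly.1 hl
  refine ⟨fun t => ?_, fun z w => ?_⟩
  · exact ((hu.comp fun z => (ρ z, t)).tendstoUniformlyOn.tendstoLocallyUniformlyOn).differentiableOn
      (Eventually.of_forall fun n => (hg n).1 t) isOpen_ball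
  · exact tendsto_nhds_unique (hu.tendsto_at (z, 0))
      ((hu.tendsto_at (w, 0)).congr fun n => (hg n).2 w z)

instance : CompleteSpace A := closedA.completeSpace_coe

lemma maxmod (g : D → ℂ) (hc : Continuous g) (hd : DifferentiableOn ℂ (fun z => g (ρ z)) (ball 0 1))
    (C : ℝ) (h : ∀ z : D, ‖(z : ℂ)‖ = 1 → ‖g z‖ ≤ C) (z : D) : ‖g z‖ ≤ C := by
  have := Complex.norm_le_of_forall_mem_frontier_norm_le (f := fun z => g (ρ z)) (C := C)
    (isBounded_ball (x := (0 : ℂ)) (r := 1)) ⟨hd, (hc.comp ρc).continuousOn⟩ (fun w hw => by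
      rw [frontier_ball _ one_ne_zero, mem_sphere_zero_iff_norm] at hw
      exact h _ (by rw [ρv w hw.le, hw])) (z := z) (by
      rw [closure_ball _ one_ne_zero]; exact z.2)
  rwa [ρe] at this

lemma nozero (f : A) (h : ∀ (z : D) t, ‖(z : ℂ)‖ = 1 → f.1 (z, t) ≠ 0) (x : K) : f.1 x ≠ 0 := by
  have one : ‖((ρ 1 : D) : ℂ)‖ = 1 := by rw [ρv 1 (by simp), norm_one]
  obtain ⟨y, hy, hm⟩ := (isClosed_eq (f := fun x : K => ‖(x.1 : ℂ)‖) (g := fun _ => (1 : ℝ))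
    (by fun_prop) continuous_const).isCompact.exists_isMinOn ⟨(ρ 1, 0), one⟩
    (f := fun x => ‖f.1 x‖) (by fun_prop)
  have hp : 0 < ‖f.1 y‖ := norm_pos_iff.2 (h y.1 y.2 hy)
  have e : {t | ∀ z, f.1 (z, t) ≠ 0} = ⋂ z, {t | ‖f.1 y‖ ≤ ‖f.1 (z, t)‖} := by
    ext t
    simp only [mem_ofPred_eq, mem_iInter]
    refine ⟨fun a z => ?_, fun a z => norm_pos_iff.1 (hp.trans_le (a z))⟩
    have := maxmod (fun z => (f.1 (z, t))⁻¹) (Continuous.inv₀ (by fun_prop) a)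
      ((f.2.1 t).inv fun _ _ => a _) ‖f.1 y‖⁻¹ (fun w hw => by
        rw [norm_inv]; exact inv_anti₀ hp (hm (a := (w, t)) hw)) z
    rwa [norm_inv, inv_le_inv₀ (norm_pos_iff.2 (a z)) hp] at this
  have o : IsOpen {t | ∀ z, f.1 (z, t) ≠ 0} := by
    have := (isClosedMap_snd_of_compactSpace _
      (isClosed_eq f.1.continuous (continuous_const (y := (0 : ℂ))))).isOpen_compl
    convert this using 1
    ext t
    simp
  have := IsClopen.eq_univ ⟨e ▸ isClosed_iInter fun z => isClosed_le continuous_const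
    (by fun_prop), o⟩ ⟨0, fun z => by rw [f.2.2 z (ρ 1)]; exact h _ _ one⟩
  exact (this.ge (mem_univ x.2)) x.1

lemma tdz (f : A) (hf : ¬ IsUnit f) :
    ∃ y : ℕ → A, (∀ n, ‖(y n).1‖ = 1) ∧ Tendsto (fun n => ‖(f * y n).1‖) atTop (𝓝 0) := by
  obtain ⟨ζ, s, h1, h2⟩ : ∃ (z : D) (t : unitInterval), ‖(z : ℂ)‖ = 1 ∧ f.1 (z, t) = 0 := by
    by_contra hc
    push Not at hc
    have h := nozero f hc
    exact hf (IsUnit.of_mul_eq_one (⟨⟨fun x => (f.1 x)⁻¹, f.1.continuous.inv₀ h⟩,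
      fun t => (f.2.1 t).inv fun _ _ => h _, fun z w => congrArg (·⁻¹) (f.2.2 z w)⟩ : A)
      (Subtype.ext (ContinuousMap.ext fun x => mul_inv_cancel₀ (h x))))
  have hζ : (ζ : ℂ) ≠ 0 := norm_pos_iff.1 (by rw [h1]; exact one_pos)
  let p : A := ⟨⟨fun x => ((1 - ((x.2 : ℝ) - s) ^ 2 : ℝ) : ℂ) *
      (((1 - (x.2 : ℝ) / 2 : ℝ) : ℂ) + (((x.2 : ℝ) / 2 : ℝ) : ℂ) * (x.1 / ζ)), by fun_prop⟩,
    fun t => (show DifferentiableOn ℂ (fun z => ((1 - ((t : ℝ) - s) ^ 2 : ℝ) : ℂ) *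
      (((1 - (t : ℝ) / 2 : ℝ) : ℂ) + (((t : ℝ) / 2 : ℝ) : ℂ) * (z / ζ))) _ by fun_prop).congr
      fun z hz => by simp [ρv z (mem_ball_zero_iff.1 hz).le], fun z w => by simp⟩
  have hp : ∀ x : K, ‖p.1 x‖ ≤ 1 ∧ (‖p.1 x‖ = 1 → f.1 x = 0) := by
    rintro ⟨z, t⟩
    have hw : ‖(z : ℂ) / ζ‖ ≤ 1 := by
      rw [norm_div, h1, div_one]; exact mem_closedBall_zero_iff.1 z.2
    have a0 : 0 ≤ 1 - ((t : ℝ) - s) ^ 2 := by nlinarith [t.2.1, t.2.2, s.2.1, s.2.2]
    have e : ‖p.1 (z, t)‖ = (1 - ((t : ℝ) - s) ^ 2) *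
        ‖((1 - (t : ℝ) / 2 : ℝ) : ℂ) + (((t : ℝ) / 2 : ℝ) : ℂ) * (z / ζ)‖ := by
      simp only [p, ContinuousMap.coe_mk, norm_mul, Complex.norm_real, Real.norm_of_nonneg a0]
    have hz : (z : ℂ) / ζ = 1 → z = ζ := fun h => Subtype.ext ((div_eq_one_iff_eq hζ).1 h)
    generalize (z : ℂ) / ζ = w at *
    have b1 : w.re ^ 2 + w.im ^ 2 ≤ 1 := by
      have := Complex.sq_norm w
      rw [Complex.normSq_apply] at this
      nlinarith [norm_nonneg w]
    have b2 : ‖((1 - (t : ℝ) / 2 : ℝ) : ℂ) + (((t : ℝ) / 2 : ℝ) : ℂ) * w‖ ^ 2 =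
        (1 - (t : ℝ) / 2 + t / 2 * w.re) ^ 2 + (t / 2 * w.im) ^ 2 := by
      rw [Complex.sq_norm, Complex.normSq_apply]
      simp only [Complex.add_re, Complex.add_im, Complex.mul_re, Complex.mul_im, Complex.ofReal_re,
        Complex.ofReal_im]
      ring
    have b0 : w.re ≤ 1 := by nlinarith [sq_nonneg w.im]
    have b5 : 0 ≤ (1 - (t : ℝ) / 2) * t * (1 - w.re) :=
      mul_nonneg (mul_nonneg (by linarith [t.2.2]) t.2.1) (by linarith)
    have b6 := mul_le_mul_of_nonneg_left b1 (sq_nonneg ((t : ℝ) / 2))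
    generalize ‖((1 - (t : ℝ) / 2 : ℝ) : ℂ) + (((t : ℝ) / 2 : ℝ) : ℂ) * w‖ = q at *
    have b3 : q ≤ 1 := abs_le_one_iff_mul_self_le_one.2 (by nlinarith) |> abs_le.1 |>.2
    have b4 := mul_le_mul_of_nonneg_left b3 a0
    refine ⟨by nlinarith [sq_nonneg ((t : ℝ) - s)], fun h => ?_⟩
    have c1 : t = s := Subtype.ext (by nlinarith [sq_nonneg ((t : ℝ) - s)])
    subst c1
    have c2 : q = 1 := by simpa [e] using h
    subst c2
    have c3 : (1 - (t : ℝ) / 2) * t * (1 - w.re) = 0 := by nlinarith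
    rcases mul_eq_zero.1 c3 with c4 | c4
    · have c5 : t = 0 := Subtype.ext ((mul_eq_zero.1 c4).resolve_left (by linarith [t.2.2]))
      subst c5
      rw [f.2.2 z ζ, h2]
    · rw [hz (Complex.ext (by simp; linarith) (by simp; nlinarith)), h2]
  refine ⟨fun n => p ^ n, fun n => le_antisymm ?_ ?_, ?_⟩
  · refine (ContinuousMap.norm_le _ zero_le_one).2 fun x => ?_
    simpa using pow_le_one₀ (norm_nonneg _) (hp x).1
  · have := (p ^ n).1.norm_coe_le_norm (ζ, s)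
    simpa [p, hζ] using this
  · have hd := Antitone.tendstoUniformly_of_forall_tendsto
      (F := fun (n : ℕ) (x : K) => ‖f.1 x‖ * ‖p.1 x‖ ^ n) (f := fun _ => (0 : ℝ))
      (fun n => by fun_prop) (fun a b hab x => mul_le_mul_of_nonneg_left
        (pow_le_pow_of_le_one (norm_nonneg _) (hp x).1 hab) (norm_nonneg _)) continuous_const
      fun x => by
        rcases (hp x).1.eq_or_lt with h | h
        · simp [(hp x).2 h]
        · simpa using (tendsto_pow_atTop_nhds_zero_of_lt_one (norm_nonneg _) h).const_mul ‖f.1 x‖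
    refine Metric.tendsto_nhds.2 fun ε hε => ?_
    filter_upwards [Metric.tendstoUniformly_iff.1 hd ε hε] with n hn
    rw [dist_zero_right, norm_norm]
    refine (ContinuousMap.norm_lt_iff _ hε).2 fun x => ?_
    simpa using hn x

lemma spp (A : Type) [NormedCommRing A] [NormedAlgebra ℂ A] (H : ∀ x : A, ¬ IsUnit x →
      ∃ y : ℕ → A, (∀ n, ‖y n‖ = 1) ∧ Tendsto (fun n => ‖x * y n‖) atTop (𝓝 0)) : SPP.{u} A := by
  intro B _ _ _ ι hι x
  ext c
  rw [spectrum.mem_iff, spectrum.mem_iff, ← ι.commutes, ← map_sub]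
  refine not_congr ⟨fun h => h.map ι, fun h => ?_⟩
  by_contra hc
  obtain ⟨y, h1, h2⟩ := H _ hc
  obtain ⟨v, hv⟩ := h.exists_left_inv
  have h3 := ((hι.continuous.tendsto 0).comp (tendsto_zero_iff_norm_tendsto_zero.2 h2)).const_mul v
  have h4 : Tendsto y atTop (𝓝 0) := hι.isInducing.tendsto_nhds_iff.2 (by
    simpa [Function.comp_def, ← mul_assoc, hv, -map_sub] using h3)
  have h5 := h4.norm
  simp [h1] at h5

def j : C(sphere (0 : ℂ) 1 × unitInterval, K) :=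
  ⟨fun x => (⟨x.1, sphere_subset_closedBall x.1.2⟩, x.2), by fun_prop⟩

noncomputable def ι : A →ₐ[ℂ] C(sphere (0 : ℂ) 1 × unitInterval, ℂ) :=
  (ContinuousMap.compRightAlgHom ℂ ℂ j).comp A.val

lemma iso (f : A) : ‖ι f‖ = ‖f.1‖ := by
  refine le_antisymm ?_ ?_
  · exact (ContinuousMap.norm_le _ (norm_nonneg f.1)).2 fun x => f.1.norm_coe_le_norm _
  · refine (ContinuousMap.norm_le _ (norm_nonneg _)).2 fun x => ?_
    exact maxmod (fun z => f.1 (z, x.2)) (by fun_prop) (f.2.1 x.2) _ (fun z hz =>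
      (f.1.comp j).norm_coe_le_norm (⟨z, mem_sphere_zero_iff_norm.2 hz⟩, x.2)) x.1

lemma noext (χ : C(sphere (0 : ℂ) 1 × unitInterval, ℂ) →ₐ[ℂ] ℂ)
    (hχ : ∀ x : A, χ (ι x) = x.1 (ρ 0, 1)) : False := by
  let a : A := ⟨⟨fun x => x.1 * ((x.2 : ℝ) : ℂ), by fun_prop⟩,
    fun t => (show DifferentiableOn ℂ (fun z => z * ((t : ℝ) : ℂ)) _ by fun_prop).congr
      fun z hz => by simp [ρv z (mem_ball_zero_iff.1 hz).le], fun z w => by simp⟩
  let b : A := ⟨⟨fun x => 1 - ((x.2 : ℝ) : ℂ), by fun_prop⟩,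
    fun t => differentiableOn_const (1 - ((t : ℝ) : ℂ)), fun z w => rfl⟩
  have e : ι a * ⟨fun x => (starRingEnd ℂ) x.1, by fun_prop⟩ + ι b = 1 := by
    ext x
    have h1 := Complex.mul_conj' (x.1 : ℂ)
    rw [mem_sphere_zero_iff_norm.1 x.1.2] at h1
    simp only [Complex.ofReal_one, one_pow] at h1
    change (x.1 : ℂ) * ((x.2 : ℝ) : ℂ) * (starRingEnd ℂ) x.1 + (1 - ((x.2 : ℝ) : ℂ)) = 1
    linear_combination ((x.2 : ℝ) : ℂ) * h1
  have := congrArg χ e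
  rw [map_add, map_mul, hχ, hχ, map_one] at this
  simp [a, b, ρ] at this

theorem result : ∃ (A : Type) (_ : NormedCommRing A) (_ : NormedAlgebra ℂ A)
    (_ : CompleteSpace A) (_ : NormOneClass A), SPP.{u} A ∧
    (∀ x : A, ¬ IsUnit x →
      ∃ y : ℕ → A, (∀ n, ‖y n‖ = 1) ∧ Tendsto (fun n => ‖x * y n‖) atTop (𝓝 0)) ∧
    ∃ (φ : A →ₐ[ℂ] ℂ) (B : Type) (_ : NormedCommRing B) (_ : NormedAlgebra ℂ B)
      (_ : CompleteSpace B) (ι : A →ₐ[ℂ] B),
      Isometry ι ∧ ¬ ∃ χ : B →ₐ[ℂ] ℂ, ∀ x, χ (ι x) = φ x := by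
  have : Nonempty K := ⟨(ρ 0, 0)⟩
  exact ⟨A, inferInstance, inferInstance, inferInstance, ⟨norm_one (α := C(K, ℂ))⟩,
    spp A tdz, tdz,
    (ContinuousMap.evalAlgHom ℂ ℂ (ρ 0, 1)).comp A.val, C(sphere (0 : ℂ) 1 × unitInterval, ℂ),
    inferInstance, inferInstance, inferInstance, ι,
    Isometry.of_dist_eq fun f g => by
      rw [dist_eq_norm, dist_eq_norm, ← map_sub]; exact iso _,
    fun ⟨χ, h⟩ => noext χ h⟩

end Pool.Agent.Results.MP_6331ea_an.Counter
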